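import Mathlib
import Pool.Agent.K4H77.SL.Def

/-!
# Stark's invariant modulo a group of numbers
-/

set_option autoImplicit false
set_option linter.unusedSectionVars false

namespace Pool.Agent.K4H26.TC

open NumberField Pool.Agent.K4H74 Pool.Agent.K4H74.SK

/-- Stark's invariant modulo the group `H` -/
noncomputable abbrev modH {c : Pair → ℂ} (hc : IsLeading c) (σ : ℂ ≃+* ℂ) (H : Subgroup ℂˣ) :
    ST.ArtinInvariant (ℂˣ ⧸ H) :=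
  mapInv (QuotientGroup.mk' H) (inv hc σ)

lemma modH_iff {c : Pair → ℂ} (hc : IsLeading c) (σ : ℂ ≃+* ℂ) (H : Subgroup ℂˣ) {E : Ext}
    {χ : G E → ℂ} (hχ : IsChr χ) {d : ℂˣ} (hd : IsDefect c σ χ d) :
    (modH hc σ H).val E.K E.L χ = 1 ↔ d ∈ H := by
  have h1 : (modH hc σ H).val E.K E.L χ = QuotientGroup.mk' H d := by
    change QuotientGroup.mk' H ((inv hc σ).val E.K E.L χ) = _
    rw [(isDefect_iff hc σ hχ).mp hd]
  rw [h1]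
  exact QuotientGroup.eq_one_iff d

lemma modH_sq {c : Pair → ℂ} (hc : IsLeading c) (σ : ℂ ≃+* ℂ) (H : Subgroup ℂˣ) {E : Ext}
    {χ : G E → ℂ} (hχ : IsChr χ) {d : ℂˣ} (hd : IsDefect c σ χ d) :
    (modH hc σ H).val E.K E.L χ ^ 2 = 1 ↔ d ^ 2 ∈ H := by
  have h1 : (modH hc σ H).val E.K E.L χ = QuotientGroup.mk' H d := by
    change QuotientGroup.mk' H ((inv hc σ).val E.K E.L χ) = _
    rw [(isDefect_iff hc σ hχ).mp hd]
  rw [h1, ← map_pow]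
  exact QuotientGroup.eq_one_iff (d ^ 2)

lemma modH_one {c : Pair → ℂ} (hc : IsLeading c) (σ : ℂ ≃+* ℂ) (H : Subgroup ℂˣ) {E : Ext}
    {χ : G E → ℂ} (hχ : IsChr χ) (h : ∀ d, IsDefect c σ χ d → d ∈ H) :
    (modH hc σ H).val E.K E.L χ = 1 := by
  obtain ⟨d, hd, -⟩ := existsUnique_defect hc σ hχ
  exact (modH_iff hc σ H hχ hd).mpr (h d hd)

variable {c : Pair → ℂ} (hc : IsLeading c) (σ : ℂ ≃+* ℂ) (H : Subgroup ℂˣ)

lemma one_of (hone : ∀ (E : Ext) (d : ℂˣ), IsDefect c σ (E := E) (fun _ => 1) d → d ∈ H) :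
    ST.TrivOne (modH hc σ H) := by
  intro K _ _
  have h : IsChr (fun _ : G ⟨K, K⟩ => (1 : ℂ)) := by
    have h1 := isChr_lin (E := ⟨K, K⟩) 1
    have h2 : lin (1 : G ⟨K, K⟩ →* ℂˣ) = fun _ => 1 := by
      funext g
      simp [lin]
    rwa [h2] at h1
  exact modH_one hc σ H (E := ⟨K, K⟩) h (hone ⟨K, K⟩)

lemma complex_of (h : ∀ E : Ext, IsTotallyComplex E.K → ∀ ψ : G E →* ℂˣ,
    Function.Injective ψ → ∀ d, IsDefect c σ (lin ψ) d → d ∈ H) :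
    ST.TrivComplex (modH hc σ H) := by
  intro K L _ _ _ _ _ _ hK ψ hψ
  exact modH_one hc σ H (E := ⟨K, L⟩) (isChr_lin (E := ⟨K, L⟩) ψ) (h ⟨K, L⟩ hK ψ hψ)

lemma odd_of (h : ∀ E : Ext, IsTotallyReal E.K → ∀ ψ : G E →* ℂˣ,
    (∀ t, IsCC t → ψ t = -1) → ∀ d, IsDefect c σ (lin ψ) d → d ∈ H) :
    ST.TrivOdd (modH hc σ H) := by
  intro K L _ _ _ _ _ _ hK ψ hψ
  refine modH_one hc σ H (E := ⟨K, L⟩) (isChr_lin (E := ⟨K, L⟩) ψ) (h ⟨K, L⟩ hK ψ ?_)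
  rintro t ⟨φ, hφ⟩
  exact hψ φ t (RingHom.ext fun x => (hφ x).symm)

lemma mixed_of (h : ∀ E : Ext, ¬ IsTotallyReal E.K → ¬ IsTotallyComplex E.K →
    (∃ l : ℕ, Nat.card (G E) = 2 ^ (l + 2)) → (∀ t : G E, IsCC t → t = 1) →
    ∀ ψ : G E →* ℂˣ, Function.Injective ψ → ∀ d, IsDefect c σ (lin ψ) d → d ∈ H) :
    ST.TrivMixed (modH hc σ H) := by
  intro K L _ _ _ _ _ _ hK hK' hl hcc ψ hψ
  refine modH_one hc σ H (E := ⟨K, L⟩) (isChr_lin (E := ⟨K, L⟩) ψ)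
    (h ⟨K, L⟩ hK hK' hl ?_ ψ hψ)
  rintro t ⟨φ, hφ⟩
  exact hcc φ t (RingHom.ext fun x => (hφ x).symm)

end Pool.Agent.K4H26.TC
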