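import Mathlib
import Pool.Agent.K4H26.TC.Mod

/-!
# Stark's invariant modulo a group of numbers: rational valued characters
-/

set_option autoImplicit false
set_option linter.unusedSectionVars false

namespace Pool.Agent.K4H26.TC

open NumberField Pool.Agent.K4H74 Pool.Agent.K4H74.SK

lemma rational_of {c : Pair → ℂ} (hc : IsLeading c) (σ : ℂ ≃+* ℂ) (H : Subgroup ℂˣ)
    (h : ∀ (E : Ext) (χ : G E → ℂ), IsChr χ → (∀ g, ∃ q : ℚ, χ g = q) →
      ∀ d, IsDefect c σ χ d → d ∈ H) : ST.TrivRational (modH hc σ H) := by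
  intro K L _ _ _ _ _ _ χ hχ hq
  exact modH_one hc σ H (E := ⟨K, L⟩) (isChr_iff.mpr hχ) (h ⟨K, L⟩ χ (isChr_iff.mpr hχ) hq)

end Pool.Agent.K4H26.TC
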